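import Mathlib

set_option autoImplicit false

/-!
# A finite group whose mixed identities have no finite basis

For a group `G`, `G*` is `G` regarded as an algebra in the signature
`(·, ⁻¹, 1, (c_g)_{g ∈ G})`, where `c_g` names `g`.  We exhibit a finite group `G` such that the
identities of `G*` (the mixed identities of `G`) have no finite basis.  The group is
`(GL(2,3) ×_det GL(2,3)) / ⟨(-1,-1)⟩`, of order `576`.
-/

namespace Pool.Agent.Results.MP_fd3e90_al.NoFiniteBasis

/-- Terms in the signature `(·, ⁻¹, 1, (c_g)_{g ∈ G})` over the variables `x_0, x_1, ...`. -/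
inductive MTerm (G : Type) : Type
  /-- the variable `x_i` -/
  | var : ℕ → MTerm G
  /-- the constant symbol `c_g` -/
  | const : G → MTerm G
  /-- the symbol `1` -/
  | one : MTerm G
  /-- multiplication of two terms -/
  | mul : MTerm G → MTerm G → MTerm G
  /-- the inverse of a term -/
  | inv : MTerm G → MTerm G

/-- An arbitrary algebra in the signature `(·, ⁻¹, 1, (c_g)_{g ∈ G})`. -/
structure MAlg (G : Type) where
  /-- the underlying set -/
  carrier : Type
  /-- the binary operation `·` -/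
  mul : carrier → carrier → carrier
  /-- the unary operation `⁻¹` -/
  inv : carrier → carrier
  /-- the constant `1` -/
  one : carrier
  /-- the constants `c_g` -/
  const : G → carrier

/-- The value of a term in an algebra, for a given assignment of the variables. -/
def MAlg.eval {G : Type} (A : MAlg G) (env : ℕ → A.carrier) : MTerm G → A.carrier
  | .var i => env i
  | .const g => A.const g
  | .one => A.one
  | .mul s t => A.mul (A.eval env s) (A.eval env t)
  | .inv s => A.inv (A.eval env s)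

/-- The identity `e.1 ≈ e.2` holds in the algebra `A`. -/
def MAlg.Holds {G : Type} (A : MAlg G) (e : MTerm G × MTerm G) : Prop :=
  ∀ env : ℕ → A.carrier, A.eval env e.1 = A.eval env e.2

/-- The algebra `G*`: the group `G` with each of its elements named by a constant. -/
def star (G : Type) [Group G] : MAlg G where
  carrier := G
  mul x y := x * y
  inv x := x⁻¹
  one := 1
  const g := g

/-- `e` is a mixed identity of the group `G`. -/
def IsMixedIdentity (G : Type) [Group G] (e : MTerm G × MTerm G) : Prop := (star G).Holds e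

/-- `e` is an equational consequence of the set `S` of identities: it holds in every algebra of
the signature in which all the identities in `S` hold. -/
def Consequence {G : Type} (S : Set (MTerm G × MTerm G)) (e : MTerm G × MTerm G) : Prop :=
  ∀ A : MAlg G, (∀ f ∈ S, A.Holds f) → A.Holds e

/-- The mixed identities of `G` are finitely based: some finite set of them has every mixed
identity of `G` as an equational consequence. -/
def MixedFinitelyBased (G : Type) [Group G] : Prop :=
  ∃ S : Set (MTerm G × MTerm G), S.Finite ∧ (∀ e ∈ S, IsMixedIdentity G e) ∧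
    ∀ e, IsMixedIdentity G e → Consequence S e

/-! ## Generalities on evaluation of terms in groups -/

section eval

variable {G : Type}

/-- A group with an arbitrary assignment of the constants. -/
def grpAlg {A : Type} [Group A] (κ : G → A) : MAlg G where
  carrier := A
  mul x y := x * y
  inv x := x⁻¹
  one := 1
  const := κ

/-- evaluation in a group -/
def ev {A : Type} [Group A] (κ : G → A) (env : ℕ → A) (u : MTerm G) : A := (grpAlg κ).eval env u

section
variable {A : Type} [Group A] (κ : G → A) (env : ℕ → A)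

@[simp] theorem ev_var (i : ℕ) : ev κ env (.var i) = env i := rfl
@[simp] theorem ev_const (g : G) : ev κ env (.const g) = κ g := rfl
@[simp] theorem ev_one : ev κ env .one = 1 := rfl
@[simp] theorem ev_mul (s t : MTerm G) : ev κ env (.mul s t) = ev κ env s * ev κ env t := rfl
@[simp] theorem ev_inv (s : MTerm G) : ev κ env (.inv s) = (ev κ env s)⁻¹ := rfl
end

theorem ev_map {A B : Type} [Group A] [Group B] (f : A →* B) (κ : G → A) (env : ℕ → A)
    (u : MTerm G) : f (ev κ env u) = ev (fun g => f (κ g)) (fun i => f (env i)) u := by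
  induction u with
  | var i => rfl
  | const g => rfl
  | one => exact map_one f
  | mul s t hs ht => rw [ev_mul, ev_mul, map_mul, hs, ht]
  | inv s hs => rw [ev_inv, ev_inv, map_inv, hs]

/-- A bound for the indices of the variables of a term. -/
def MTerm.bound : MTerm G → ℕ
  | .var i => i + 1
  | .const _ => 0
  | .one => 0
  | .mul s t => max s.bound t.bound
  | .inv s => s.bound

theorem ev_congr {A : Type} [Group A] (κ : G → A) {env env' : ℕ → A} (u : MTerm G) {m : ℕ}
    (hm : u.bound ≤ m) (h : ∀ i < m, env i = env' i) : ev κ env u = ev κ env' u := by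
  induction u with
  | var i => exact h i (by simpa [MTerm.bound] using hm)
  | const g => rfl
  | one => rfl
  | mul s t hs ht =>
    rw [ev_mul, ev_mul, hs ((le_max_left _ _).trans hm), ht ((le_max_right _ _).trans hm)]
  | inv s hs => rw [ev_inv, ev_inv, hs hm]

/-- commutator -/
def cm {A : Type} [Group A] (x y : A) : A := x⁻¹ * y⁻¹ * x * y

/-- `[b, x_0, ..., x_{k-1}]` -/
def omU {A : Type} [Group A] (b : A) (x : ℕ → A) : ℕ → A
  | 0 => b
  | k + 1 => cm (omU b x k) (x k)

/-- `[q, [q, [b, x_0, ..., x_{n-1}]]]` -/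
def om {A : Type} [Group A] (q b : A) (x : ℕ → A) (n : ℕ) : A := cm q (cm q (omU b x n))

theorem map_cm {A B : Type} [Group A] [Group B] (f : A →* B) (x y : A) :
    f (cm x y) = cm (f x) (f y) := by simp [cm]

theorem map_omU {A B : Type} [Group A] [Group B] (f : A →* B) (b : A) (x : ℕ → A) (n : ℕ) :
    f (omU b x n) = omU (f b) (fun i => f (x i)) n := by
  induction n with
  | zero => rfl
  | succ n ih => simp only [omU, map_cm, ih]

theorem map_om {A B : Type} [Group A] [Group B] (f : A →* B) (q b : A) (x : ℕ → A) (n : ℕ) :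
    f (om q b x n) = om (f q) (f b) (fun i => f (x i)) n := by
  simp only [om, map_cm, map_omU]

theorem omU_one {A : Type} [Group A] (x : ℕ → A) (n : ℕ) : omU (1 : A) x n = 1 := by
  induction n with
  | zero => rfl
  | succ n ih => simp [omU, cm, ih]

theorem om_one {A : Type} [Group A] (x : ℕ → A) (n : ℕ) : om (1 : A) 1 x n = 1 := by
  simp [om, cm, omU_one]

/-- the commutator of two terms -/
def cmT (s t : MTerm G) : MTerm G := .mul (.mul (.mul (.inv s) (.inv t)) s) t

/-- the term `[c_b, x_0, ..., x_{k-1}]` -/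
def omUT (b : G) : ℕ → MTerm G
  | 0 => .const b
  | k + 1 => cmT (omUT b k) (.var k)

/-- the term `[c_q, [c_q, [c_b, x_0, ..., x_{n-1}]]]` -/
def omT (q b : G) (n : ℕ) : MTerm G := cmT (.const q) (cmT (.const q) (omUT b n))

theorem ev_omT {A : Type} [Group A] (κ : G → A) (env : ℕ → A) (q b : G) (n : ℕ) :
    ev κ env (omT q b n) = om (κ q) (κ b) env n := by
  have h : ev κ env (omUT b n) = omU (κ b) env n := by
    induction n with
    | zero => rfl
    | succ n ih => simp [omUT, omU, cmT, cm, ih]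
  simp [omT, om, cmT, cm, h]

end eval

/-! ## The group `X = GL(2, 3)` -/

/-- Invertible `2 × 2` matrices over the field with three elements. -/
@[ext]
structure X where
  /-- entry -/
  a : ZMod 3
  /-- entry -/
  b : ZMod 3
  /-- entry -/
  c : ZMod 3
  /-- entry -/
  d : ZMod 3
  /-- the determinant is nonzero -/
  h : a * d - b * c ≠ 0
deriving DecidableEq

namespace X

theorem sq_one {x : ZMod 3} (hx : x ≠ 0) : x * x = 1 := by
  revert x; decide

instance : Mul X := ⟨fun x y => ⟨x.a * y.a + x.b * y.c, x.a * y.b + x.b * y.d,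
  x.c * y.a + x.d * y.c, x.c * y.b + x.d * y.d, by
    have : (x.a * y.a + x.b * y.c) * (x.c * y.b + x.d * y.d) -
      (x.a * y.b + x.b * y.d) * (x.c * y.a + x.d * y.c) =
      (x.a * x.d - x.b * x.c) * (y.a * y.d - y.b * y.c) := by ring
    rw [this]
    exact mul_ne_zero x.h y.h⟩⟩

instance : One X := ⟨⟨1, 0, 0, 1, by decide⟩⟩

instance : Inv X := ⟨fun x => ⟨(x.a * x.d - x.b * x.c) * x.d, -((x.a * x.d - x.b * x.c) * x.b),
  -((x.a * x.d - x.b * x.c) * x.c), (x.a * x.d - x.b * x.c) * x.a, by
    have : (x.a * x.d - x.b * x.c) * x.d * ((x.a * x.d - x.b * x.c) * x.a) -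
      -((x.a * x.d - x.b * x.c) * x.b) * -((x.a * x.d - x.b * x.c) * x.c) =
      (x.a * x.d - x.b * x.c) * (x.a * x.d - x.b * x.c) * (x.a * x.d - x.b * x.c) := by ring
    rw [this]
    exact mul_ne_zero (mul_ne_zero x.h x.h) x.h⟩⟩

theorem mul_def (x y : X) : x * y = ⟨x.a * y.a + x.b * y.c, x.a * y.b + x.b * y.d,
  x.c * y.a + x.d * y.c, x.c * y.b + x.d * y.d, (x * y).h⟩ := rfl

instance : Group X := Group.ofLeftAxioms
  (by
    intro x y z
    ext <;> simp only [mul_def] <;> ring)
  (by
    intro x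
    show (⟨1, 0, 0, 1, by decide⟩ : X) * x = x
    ext <;> simp only [mul_def] <;> ring)
  (by
    intro x
    have h := sq_one x.h
    show (⟨(x.a * x.d - x.b * x.c) * x.d, -((x.a * x.d - x.b * x.c) * x.b),
      -((x.a * x.d - x.b * x.c) * x.c), (x.a * x.d - x.b * x.c) * x.a, _⟩ : X) * x
        = ⟨1, 0, 0, 1, by decide⟩
    ext <;> simp only [mul_def]
    · calc _ = (x.a * x.d - x.b * x.c) * (x.a * x.d - x.b * x.c) := by ring
        _ = 1 := h
    · ring
    · ring
    · calc _ = (x.a * x.d - x.b * x.c) * (x.a * x.d - x.b * x.c) := by ring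
        _ = 1 := h)

instance : Finite X :=
  Finite.of_injective (fun x : X => (x.a, x.b, x.c, x.d)) (by
    intro x y h
    simp only [Prod.mk.injEq] at h
    ext
    · exact h.1
    · exact h.2.1
    · exact h.2.2.1
    · exact h.2.2.2)

/-- The determinant, written additively: `0` if `det x = 1` and `1` if `det x = -1`. -/
def δ (x : X) : ZMod 2 := if x.a * x.d - x.b * x.c = 1 then 0 else 1

theorem δ_mul (x y : X) : δ (x * y) = δ x + δ y := by
  have key : ∀ u v : ZMod 3, u ≠ 0 → v ≠ 0 → (if u * v = 1 then (0 : ZMod 2) else 1) =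
      (if u = 1 then 0 else 1) + (if v = 1 then 0 else 1) := by decide
  have h : (x * y).a * (x * y).d - (x * y).b * (x * y).c =
      (x.a * x.d - x.b * x.c) * (y.a * y.d - y.b * y.c) := by
    simp only [mul_def]; ring
  unfold δ
  rw [h]
  exact key _ _ x.h y.h

theorem δ_one : δ (1 : X) = 0 := by decide

theorem δ_inv (x : X) : δ x⁻¹ = δ x := by
  have h := δ_mul x x⁻¹
  rw [mul_inv_cancel, δ_one] at h
  have : ∀ u v : ZMod 2, 0 = u + v → v = u := by decide
  exact this _ _ h

/-- the quaternion subgroup -/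
def isQ (x : X) : Bool := (x.a * x.d - x.b * x.c == 1) && (x.a + x.d == 0 || (x.b == 0 && x.c == 0))

/-- an element of order `3` -/
def bb : X := ⟨1, 1, 0, 1, by decide⟩

/-- an element of order `4` of the quaternion subgroup -/
def qq : X := ⟨0, 1, -1, 0, by decide⟩

/-- the central involution -/
def zz : X := ⟨-1, 0, 0, -1, by decide⟩

/-- an element of determinant `-1` -/
def tt : X := ⟨1, 0, 0, -1, by decide⟩

/-- the coset of `bb` modulo the quaternion subgroup -/
def isB (x : X) : Bool := isQ (bb⁻¹ * x)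

theorem factB : ∀ (a b c d : ZMod 3) (h : a * d - b * c ≠ 0),
    isQ ⟨a, b, c, d, h⟩ = true → ∀ (a' b' c' d' : ZMod 3) (h' : a' * d' - b' * c' ≠ 0),
      isQ (cm ⟨a, b, c, d, h⟩ ⟨a', b', c', d', h'⟩) = true := by
  decide +kernel

theorem factC : ∀ (a b c d : ZMod 3) (h : a * d - b * c ≠ 0),
    isB ⟨a, b, c, d, h⟩ = true → ∀ (a' b' c' d' : ZMod 3) (h' : a' * d' - b' * c' ≠ 0),
      a' * d' - b' * c' = 1 → isQ (cm ⟨a, b, c, d, h⟩ ⟨a', b', c', d', h'⟩) = true := by
  decide +kernel

theorem factD : ∀ (a b c d : ZMod 3) (h : a * d - b * c ≠ 0),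
    isB ⟨a, b, c, d, h⟩ = true → ∀ (a' b' c' d' : ZMod 3) (h' : a' * d' - b' * c' ≠ 0),
      a' * d' - b' * c' ≠ 1 → isB (cm ⟨a, b, c, d, h⟩ ⟨a', b', c', d', h'⟩) = true := by
  decide +kernel

theorem factE : ∀ (a b c d : ZMod 3) (h : a * d - b * c ≠ 0),
    isQ ⟨a, b, c, d, h⟩ = true → cm qq (cm qq ⟨a, b, c, d, h⟩) = 1 := by
  decide +kernel

theorem factF : ∀ (a b c d : ZMod 3) (h : a * d - b * c ≠ 0),
    isB ⟨a, b, c, d, h⟩ = true → cm qq (cm qq ⟨a, b, c, d, h⟩) = zz := by
  decide +kernel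

theorem zz_comm (x : X) : zz * x = x * zz := by
  ext <;> simp only [mul_def, zz] <;> ring

theorem zz_sq : zz * zz = 1 := by decide

theorem zz_ne : zz ≠ 1 := by decide

/-- the embedding of `ZMod 2` as the centre of `X` -/
def ζ (s : ZMod 2) : X := if s = 0 then 1 else zz

theorem ζ_add (s t : ZMod 2) : ζ (s + t) = ζ s * ζ t := by
  revert s t; decide

theorem ζ_zero : ζ 0 = 1 := rfl

theorem ζ_one : ζ 1 = zz := rfl

theorem ζ_inv (s : ZMod 2) : (ζ s)⁻¹ = ζ s := by
  revert s; decide

theorem δ_ζ (s : ZMod 2) : δ (ζ s) = 0 := by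
  revert s; decide

theorem ζ_inj {s t : ZMod 2} (h : ζ s = ζ t) : s = t := by
  revert s t; decide

theorem ζ_comm (s : ZMod 2) (x : X) : ζ s * x = x * ζ s := by
  unfold ζ
  split
  · rw [one_mul, mul_one]
  · exact zz_comm x

/-- The key evaluation: `[q, [q, [b, x_0, ..., x_{n-1}]]] = (-1)^{∏ δ(x_i)}` on `X`. -/
theorem om_eval (x : ℕ → X) (n : ℕ) : om qq bb x n = ζ (∏ i ∈ Finset.range n, δ (x i)) := by
  have h : ∀ k, (∏ i ∈ Finset.range k, δ (x i) = 0 ∧ isQ (omU bb x k) = true) ∨
      (∏ i ∈ Finset.range k, δ (x i) = 1 ∧ isB (omU bb x k) = true) := by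
    intro k
    induction k with
    | zero => right; exact ⟨rfl, (by decide : isB bb = true)⟩
    | succ k ih =>
      rw [Finset.prod_range_succ]
      rcases ih with ⟨h1, h2⟩ | ⟨h1, h2⟩
      · left
        rw [h1, zero_mul]
        exact ⟨rfl, factB _ _ _ _ _ h2 _ _ _ _ _⟩
      · rw [h1, one_mul]
        by_cases hx : (x k).a * (x k).d - (x k).b * (x k).c = 1
        · left
          exact ⟨if_pos hx, factC _ _ _ _ _ h2 _ _ _ _ _ hx⟩
        · right
          exact ⟨if_neg hx, factD _ _ _ _ _ h2 _ _ _ _ _ hx⟩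
  unfold om
  rcases h n with ⟨h1, h2⟩ | ⟨h1, h2⟩
  · rw [h1, ζ_zero]
    exact factE _ _ _ _ _ h2
  · rw [h1, ζ_one]
    exact factF _ _ _ _ _ h2

end X

open X

/-! ## The group `G = (X ×_det X) / ⟨(-1, -1)⟩` -/

/-- pairs of elements of `X` with the same determinant -/
def P : Subgroup (X × X) where
  carrier := {p | δ p.1 = δ p.2}
  mul_mem' := by
    intro p q hp hq
    rw [Set.mem_ofPred_eq] at hp hq ⊢
    rw [Prod.fst_mul, Prod.snd_mul, δ_mul, δ_mul, hp, hq]
  one_mem' := rfl
  inv_mem' := by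
    intro p hp
    rw [Set.mem_ofPred_eq] at hp ⊢
    rw [Prod.fst_inv, Prod.snd_inv, δ_inv, δ_inv, hp]

theorem mem_P {p : X × X} : p ∈ P ↔ δ p.1 = δ p.2 := Iff.rfl

/-- the subgroup generated by `(-1, -1)` -/
def C : Subgroup P where
  carrier := {p | ∃ s : ZMod 2, p.1 = (ζ s, ζ s)}
  mul_mem' := by
    rintro p q ⟨s, hs⟩ ⟨t, ht⟩
    exact ⟨s + t, by rw [Subgroup.coe_mul, hs, ht, ζ_add]; rfl⟩
  one_mem' := ⟨0, rfl⟩
  inv_mem' := by
    rintro p ⟨s, hs⟩
    exact ⟨s, by rw [Subgroup.coe_inv, hs, Prod.inv_mk, ζ_inv]⟩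

theorem mem_C {p : P} : p ∈ C ↔ ∃ s : ZMod 2, p.1 = (ζ s, ζ s) := Iff.rfl

instance : C.Normal where
  conj_mem := by
    rintro p ⟨s, hs⟩ g
    refine ⟨s, ?_⟩
    rw [Subgroup.coe_mul, Subgroup.coe_mul, Subgroup.coe_inv, hs]
    ext1
    · show g.1.1 * ζ s * g.1.1⁻¹ = ζ s
      rw [← ζ_comm, mul_inv_cancel_right]
    · show g.1.2 * ζ s * g.1.2⁻¹ = ζ s
      rw [← ζ_comm, mul_inv_cancel_right]

/-- the group of order `576` -/
abbrev G : Type := P ⧸ C

/-- the canonical projection -/
def π : P →* G := QuotientGroup.mk' C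

theorem π_surj : Function.Surjective π := QuotientGroup.mk'_surjective C

theorem π_eq {p q : P} : π p = π q ↔ p⁻¹ * q ∈ C := QuotientGroup.eq

/-- a section of `π` -/
noncomputable def κ (g : G) : P := (π_surj g).choose

theorem π_κ (g : G) : π (κ g) = g := (π_surj g).choose_spec

/-- first components of the lifted constants -/
noncomputable def κ1 (g : G) : X := (κ g).1.1

/-- second components of the lifted constants -/
noncomputable def κ2 (g : G) : X := (κ g).1.2

/-- first projection -/
def pr1 : P →* X := (MonoidHom.fst X X).comp P.subtype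

/-- second projection -/
def pr2 : P →* X := (MonoidHom.snd X X).comp P.subtype

/-- the discrepancy between the two sides of an identity -/
def disc {A B : Type} [Group A] (c : B → A) (env : ℕ → A) (e : MTerm B × MTerm B) : A :=
  (ev c env e.1)⁻¹ * ev c env e.2

theorem map_disc {A A' B : Type} [Group A] [Group A'] (f : A →* A') (c : B → A) (env : ℕ → A)
    (e : MTerm B × MTerm B) : f (disc c env e) = disc (fun g => f (c g)) (fun i => f (env i)) e := by
  rw [disc, disc, map_mul, map_inv, ev_map, ev_map]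

theorem disc_pair {e : MTerm G × MTerm G} (he : IsMixedIdentity G e) {x y : ℕ → X}
    (hxy : ∀ i, δ (x i) = δ (y i)) :
    ∃ s : ZMod 2, disc κ1 x e = ζ s ∧ disc κ2 y e = ζ s := by
  let p : ℕ → P := fun i => ⟨(x i, y i), hxy i⟩
  have h1 : π (ev κ p e.1) = π (ev κ p e.2) := by
    have h := he (fun i => π (p i))
    have h2 : ∀ u : MTerm G, π (ev κ p u) = (star G).eval (fun i => π (p i)) u := by
      intro u
      rw [ev_map]
      simp only [π_κ]
      rfl
    rw [h2, h2]
    exact h
  obtain ⟨s, hs⟩ := π_eq.mp h1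
  refine ⟨s, ?_, ?_⟩
  · have h3 := map_disc pr1 κ p e
    have h4 : pr1 (disc κ p e) = ζ s := congrArg Prod.fst hs
    rw [h4] at h3
    exact h3.symm
  · have h3 := map_disc pr2 κ p e
    have h4 : pr2 (disc κ p e) = ζ s := congrArg Prod.snd hs
    rw [h4] at h3
    exact h3.symm

/-- The discrepancy of a mixed identity depends only on the determinants. -/
theorem disc_det {e : MTerm G × MTerm G} (he : IsMixedIdentity G e) {x y : ℕ → X}
    (hxy : ∀ i, δ (x i) = δ (y i)) : disc κ1 x e = disc κ1 y e := by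
  obtain ⟨s, h1, h2⟩ := disc_pair he hxy
  obtain ⟨t, h3, h4⟩ := disc_pair he (fun i => (rfl : δ (y i) = δ (y i)))
  rw [h1, h3]
  rw [h2] at h4
  exact h4

/-! ## The groups `H_n` -/

/-- the vector space `F_2^n` -/
abbrev T (n : ℕ) : Type := Fin n → ZMod 2

/-- families of elements of `X` indexed by `F_2^n`, whose determinant is an affine function -/
def Y (n : ℕ) : Subgroup (T n → X) where
  carrier := {y | ∃ (l : T n →ₗ[ZMod 2] ZMod 2) (c : ZMod 2), ∀ t, δ (y t) = l t + c}
  mul_mem' := by
    rintro y y' ⟨l, c, h⟩ ⟨l', c', h'⟩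
    refine ⟨l + l', c + c', fun t => ?_⟩
    rw [Pi.mul_apply, δ_mul, h, h', LinearMap.add_apply]
    ring
  one_mem' := ⟨0, 0, fun t => by simp [δ_one]⟩
  inv_mem' := by
    rintro y ⟨l, c, h⟩
    exact ⟨l, c, fun t => by rw [Pi.inv_apply, δ_inv, h]⟩

/-- central families with product one -/
def K (n : ℕ) : Subgroup (Y n) where
  carrier := {y | ∃ s : T n → ZMod 2, (∀ t, y.1 t = ζ (s t)) ∧ ∑ t, s t = 0}
  mul_mem' := by
    rintro y y' ⟨s, h1, h2⟩ ⟨s', h1', h2'⟩
    refine ⟨fun t => s t + s' t, fun t => ?_, ?_⟩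
    · rw [Subgroup.coe_mul, Pi.mul_apply, h1, h1', ζ_add]
    · rw [Finset.sum_add_distrib, h2, h2', add_zero]
  one_mem' := ⟨fun _ => 0, fun t => rfl, by simp⟩
  inv_mem' := by
    rintro y ⟨s, h1, h2⟩
    exact ⟨s, fun t => by rw [Subgroup.coe_inv, Pi.inv_apply, h1, ζ_inv], h2⟩

instance (n : ℕ) : (K n).Normal where
  conj_mem := by
    rintro y ⟨s, h1, h2⟩ g
    refine ⟨s, fun t => ?_, h2⟩
    rw [Subgroup.coe_mul, Subgroup.coe_mul, Subgroup.coe_inv, Pi.mul_apply, Pi.mul_apply,
      Pi.inv_apply, h1, ← ζ_comm, mul_inv_cancel_right]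

/-- the group `H_n` -/
abbrev H (n : ℕ) : Type := Y n ⧸ K n

/-- the projection onto `H_n` -/
def ρ (n : ℕ) : Y n →* H n := QuotientGroup.mk' (K n)

theorem ρ_eq {n : ℕ} {p q : Y n} : ρ n p = ρ n q ↔ p⁻¹ * q ∈ K n := QuotientGroup.eq

/-- constant families -/
def cst (n : ℕ) : X →* Y n where
  toFun x := ⟨fun _ => x, 0, δ x, fun t => by simp⟩
  map_one' := rfl
  map_mul' x y := rfl

/-- the constants of `H_n` -/
noncomputable def ι (n : ℕ) (g : G) : H n := ρ n (cst n (κ1 g))

/-- `H_n` as an algebra in the signature -/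
noncomputable def HAlg (n : ℕ) : MAlg G := grpAlg (ι n)

theorem ι_π {n : ℕ} (hn : 1 ≤ n) (p : P) : ι n (π p) = ρ n (cst n p.1.1) := by
  have h : π (κ (π p)) = π p := π_κ _
  obtain ⟨s, hs⟩ := π_eq.mp h
  unfold ι
  rw [ρ_eq]
  refine ⟨fun _ => s, fun t => ?_, ?_⟩
  · exact congrArg Prod.fst hs
  · rw [Finset.sum_const, Finset.card_univ, Fintype.card_fun, ZMod.card, Fintype.card_fin]
    obtain ⟨m, rfl⟩ : ∃ m, n = m + 1 := ⟨n - 1, by omega⟩
    rw [pow_succ, mul_comm, mul_smul]
    have : ∀ a : ZMod 2, 2 • a = 0 := by decide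
    exact this _

/-- `H_n` satisfies all mixed identities of `G` in fewer than `n` variables. -/
theorem H_holds {n m : ℕ} (hmn : m < n) {e : MTerm G × MTerm G} (he : IsMixedIdentity G e)
    (h1 : e.1.bound ≤ m) (h2 : e.2.bound ≤ m) : (HAlg n).Holds e := by
  intro env0
  let env : ℕ → H n := fun i => if i < m then env0 i else 1
  have hev1 : (HAlg n).eval env0 e.1 = ev (ι n) env e.1 :=
    ev_congr (ι n) e.1 h1 (fun i hi => (if_pos hi).symm)
  have hev2 : (HAlg n).eval env0 e.2 = ev (ι n) env e.2 :=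
    ev_congr (ι n) e.2 h2 (fun i hi => (if_pos hi).symm)
  rw [hev1, hev2]
  -- lift the assignment
  have hlift : ∀ i : ℕ, ∃ y : Y n, ρ n y = env i ∧ (m ≤ i → y = 1) := by
    intro i
    by_cases hi : i < m
    · obtain ⟨y, hy⟩ := QuotientGroup.mk'_surjective (K n) (env i)
      exact ⟨y, hy, fun h => absurd hi (by omega)⟩
    · refine ⟨1, ?_, fun _ => rfl⟩
      rw [map_one]
      exact (if_neg hi).symm
  choose y hy1 hy2 using hlift
  -- the determinants
  choose l c hlc using fun i => (y i).2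
  -- a common period of the determinants
  obtain ⟨d, hd0, hd⟩ : ∃ d : T n, d ≠ 0 ∧ ∀ i < m, l i d = 0 := by
    let L : T n →ₗ[ZMod 2] (Fin m → ZMod 2) := LinearMap.pi (fun i => l i)
    have hker : LinearMap.ker L ≠ ⊥ := by
      apply LinearMap.ker_ne_bot_of_finrank_lt
      simpa using hmn
    obtain ⟨d, hd, hd0⟩ := Submodule.exists_mem_ne_zero_of_ne_bot hker
    refine ⟨d, hd0, fun i hi => ?_⟩
    exact congrFun (LinearMap.mem_ker.mp hd) ⟨i, hi⟩
  have hper : ∀ (t : T n) (i : ℕ), δ ((y i).1 (t + d)) = δ ((y i).1 t) := by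
    intro t i
    by_cases hi : i < m
    · rw [hlc, hlc, map_add, hd i hi, add_zero]
    · rw [hy2 i (by omega)]
      rfl
  -- evaluate in `Y n`
  have hev : ∀ u : MTerm G, ev (ι n) env u = ρ n (ev (fun g => cst n (κ1 g)) y u) := by
    intro u
    rw [ev_map]
    simp only [hy1]
    rfl
  rw [hev, hev]
  refine ρ_eq.mpr ?_
  have hcoord : ∀ t : T n, (disc (fun g => cst n (κ1 g)) y e).1 t =
      disc κ1 (fun i => (y i).1 t) e := by
    intro t
    exact map_disc ((Pi.evalMonoidHom (fun _ : T n => X) t).comp (Y n).subtype) _ _ e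
  have hs : ∀ t : T n, ∃ s : ZMod 2, disc κ1 (fun i => (y i).1 t) e = ζ s := by
    intro t
    obtain ⟨s, hs, -⟩ := disc_pair he (fun i => (rfl : δ ((y i).1 t) = δ ((y i).1 t)))
    exact ⟨s, hs⟩
  choose s hs using hs
  refine ⟨s, fun t => ?_, ?_⟩
  · rw [← hs]
    exact hcoord t
  · have hss : ∀ t, s (t + d) = s t := by
      intro t
      apply ζ_inj
      rw [← hs, ← hs]
      exact disc_det he (hper t)
    have hdd : d + d = 0 := by
      ext i
      have : ∀ a : ZMod 2, a + a = 0 := by decide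
      exact this _
    apply Finset.sum_involution (fun t _ => t + d)
    · intro t _
      rw [hss]
      have : ∀ a : ZMod 2, a + a = 0 := by decide
      exact this _
    · intro t _ _ h
      exact hd0 (by simpa using h)
    · intro t _
      exact Finset.mem_univ _
    · intro t _
      rw [add_assoc, hdd, add_zero]

/-! ## The identities `w_n` -/

/-- the element `(x, 1)` of `P`, for `x` of determinant one -/
def inl (x : X) (hx : δ x = 0) : P := ⟨(x, 1), hx.trans δ_one.symm⟩

/-- the element `(1, x)` of `P`, for `x` of determinant one -/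
def inr (x : X) (hx : δ x = 0) : P := ⟨(1, x), δ_one.trans hx.symm⟩

theorem δ_qq : δ qq = 0 := by decide

theorem δ_bb : δ bb = 0 := by decide

theorem δ_tt : δ tt = 1 := by decide

/-- the identity `w_n` -/
def w (n : ℕ) : MTerm G × MTerm G :=
  (omT (π (inl qq δ_qq)) (π (inl bb δ_bb)) n, omT (π (inr qq δ_qq)) (π (inr bb δ_bb)) n)

/-- `w_n` is a mixed identity of `G`. -/
theorem w_holds (n : ℕ) : IsMixedIdentity G (w n) := by
  intro env
  choose p hp using fun i => π_surj (env i)
  have hp' : env = fun i => π (p i) := funext fun i => (hp i).symm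
  have h1 : (star G).eval env (w n).1 = π (om (inl qq δ_qq) (inl bb δ_bb) p n) := by
    rw [map_om, ← hp']
    exact ev_omT (fun g : G => g) env _ _ n
  have h2 : (star G).eval env (w n).2 = π (om (inr qq δ_qq) (inr bb δ_bb) p n) := by
    rw [map_om, ← hp']
    exact ev_omT (fun g : G => g) env _ _ n
  have hδ : ∀ i, δ (pr1 (p i)) = δ (pr2 (p i)) := fun i => (p i).2
  have h3 : pr1 (om (inl qq δ_qq) (inl bb δ_bb) p n) =
      ζ (∏ i ∈ Finset.range n, δ (pr1 (p i))) := by
    rw [map_om]
    exact om_eval _ n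
  have h4 : pr2 (om (inl qq δ_qq) (inl bb δ_bb) p n) = 1 := by
    rw [map_om]
    exact om_one _ n
  have h5 : pr1 (om (inr qq δ_qq) (inr bb δ_bb) p n) = 1 := by
    rw [map_om]
    exact om_one _ n
  have h6 : pr2 (om (inr qq δ_qq) (inr bb δ_bb) p n) =
      ζ (∏ i ∈ Finset.range n, δ (pr1 (p i))) := by
    simp only [hδ]
    rw [map_om]
    exact om_eval _ n
  rw [h1, h2]
  refine π_eq.mpr ⟨∏ i ∈ Finset.range n, δ (pr1 (p i)), ?_⟩
  ext1
  · show pr1 (_⁻¹ * _) = _
    rw [map_mul, map_inv, h3, h5, ζ_inv, mul_one]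
  · show pr2 (_⁻¹ * _) = _
    rw [map_mul, map_inv, h4, h6, inv_one, one_mul]

/-- `w_n` fails in `H_n`. -/
theorem w_fails {n : ℕ} (hn : 1 ≤ n) : ¬ (HAlg n).Holds (w n) := by
  intro hw
  -- the `i`-th element has determinant `t_i`
  let y : ℕ → Y n := fun i =>
    if h : i < n then ⟨fun t => if t ⟨i, h⟩ = 0 then 1 else tt,
      LinearMap.proj (⟨i, h⟩ : Fin n), 0, fun t => by
        rw [add_zero, LinearMap.proj_apply]
        have key : ∀ a : ZMod 2, δ (if a = 0 then 1 else tt) = a := by decide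
        exact key _⟩
    else 1
  have hy : ∀ (i : ℕ) (h : i < n) (t : T n), δ ((y i).1 t) = t ⟨i, h⟩ := by
    intro i h t
    simp only [y, dif_pos h]
    have key : ∀ a : ZMod 2, δ (if a = 0 then 1 else tt) = a := by decide
    exact key _
  have h0 := hw (fun i => ρ n (y i))
  have h1 : (HAlg n).eval (fun i => ρ n (y i)) (w n).1 = ρ n (om (cst n qq) (cst n bb) y n) := by
    rw [map_om]
    refine (ev_omT (ι n) (fun i => ρ n (y i)) _ _ n).trans ?_
    rw [ι_π hn, ι_π hn]
    rfl
  have h2 : (HAlg n).eval (fun i => ρ n (y i)) (w n).2 = ρ n 1 := by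
    have h3 : ρ n (om (cst n 1) (cst n 1) y n) = ρ n 1 := by
      rw [map_one (cst n), om_one]
    rw [← h3, map_om]
    refine (ev_omT (ι n) (fun i => ρ n (y i)) _ _ n).trans ?_
    rw [ι_π hn, ι_π hn]
    rfl
  rw [h1, h2] at h0
  obtain ⟨s, hs1, hs2⟩ := ρ_eq.mp h0.symm
  have h4 : ∀ t : T n, s t = ∏ i, t i := by
    intro t
    apply ζ_inj
    rw [← hs1, inv_one, one_mul]
    have h5 := map_om ((Pi.evalMonoidHom (fun _ : T n => X) t).comp (Y n).subtype)
      (cst n qq) (cst n bb) y n
    refine h5.trans ?_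
    refine (om_eval _ n).trans ?_
    congr 1
    rw [Finset.prod_range]
    apply Finset.prod_congr rfl
    intro i _
    exact hy i.1 i.2 t
  have h6 : ∑ t : T n, ∏ i, t i = 1 := by
    have h7 := Finset.prod_univ_sum (fun _ : Fin n => (Finset.univ : Finset (ZMod 2)))
      (fun _ a => a)
    rw [Fintype.piFinset_univ] at h7
    rw [← h7]
    have : ∑ a : ZMod 2, a = 1 := by decide
    simp only [this, Finset.prod_const_one]
  rw [Finset.sum_congr rfl (fun t _ => h4 t), h6] at hs2
  exact one_ne_zero hs2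

instance : Finite G := by
  have : Finite P := inferInstance
  exact Quotient.finite _

/-- **Main theorem.** There is a finite group whose mixed identities have no finite basis. -/
theorem result : ∃ (G : Type) (_ : Group G), Finite G ∧ ¬ MixedFinitelyBased G := by
  refine ⟨G, inferInstance, inferInstance, ?_⟩
  rintro ⟨S, hfin, hS, hcons⟩
  -- a bound for the variables occurring in `S`
  obtain ⟨m, hm⟩ : ∃ m, ∀ e ∈ S, e.1.bound ≤ m ∧ e.2.bound ≤ m := by
    obtain ⟨m, hm⟩ := (hfin.image (fun e => max e.1.bound e.2.bound)).bddAbove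
    refine ⟨m, fun e he => ?_⟩
    have := hm ⟨e, he, rfl⟩
    exact ⟨(le_max_left _ _).trans this, (le_max_right _ _).trans this⟩
  apply w_fails (n := m + 1) (by omega)
  apply hcons _ (w_holds (m + 1))
  intro e he
  exact H_holds (Nat.lt_succ_self m) (hS e he) (hm e he).1 (hm e he).2

end Pool.Agent.Results.MP_fd3e90_al.NoFiniteBasis
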